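import Mathlib
import Pool.Agent.Lib.MP_78e958_co.Defs
import Pool.Agent.Lib.MP_78e958_co.Proofs

/-!
# An open rectangle-of-influence graph that is a CRVG but not an RVG

The join of two paths with eleven vertices each is an open RIG and a CRVG but not an RVG.
-/

namespace Pool.Agent.Results.MP_78e958_co.RigCrvgNotRvg

open Pool.Agent.Lib.MP_78e958_co

/-- **Theorem.** There is a finite graph that is an open rectangle-of-influence graph and a
corner rectangle visibility graph, but not a rectangle visibility graph. -/
theorem result : ∃ (n : ℕ) (G : SimpleGraph (Fin n)), IsOpenRIG G ∧ IsCRVG G ∧ ¬ IsRVG G :=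
  ⟨22, G, G_openRIG, G_crvg, G_not_rvg⟩

end Pool.Agent.Results.MP_78e958_co.RigCrvgNotRvg
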